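import Pool.Agent.P.MP_f8f34d_lc.C.Fin
import Pool.Agent.P.MP_f8f34d_lc.a.Sol

/-! The subsets of Cantor space that reduce continuously to the question whether the degrees of
the models of a completion of Peano arithmetic have a minimal element are exactly the analytic
sets. -/

open FirstOrder FirstOrder.Language Pool.Agent.MinDeg

theorem Pool.Agent.Results.MP_f8f34d_lc.AnalyticComplete.result (A : Set (ℕ → Bool)) :
    MeasureTheory.AnalyticSet A ↔
      ∃ f : (ℕ → Bool) → ℕ → Bool, Continuous f ∧ ∀ x, ∃ T : LA.Theory,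
        T.IsMaximal ∧ PA ⊆ T ∧ T ≠ TA ∧ (∀ n, f x n = true ↔ ∃ σ ∈ T, gn σ = n) ∧
          (x ∈ A ↔ ∃ d ∈ degrees T, ∀ e ∈ degrees T, ¬ e < d) := by
  simp only [tg_iff]
  exact c_main solovay A

/-- the set of all completions with the answer yes is itself analytic -/
theorem Pool.Agent.Results.MP_f8f34d_lc.AnalyticComplete.yes_analytic :
    MeasureTheory.AnalyticSet {χ : ℕ → Bool | ∃ T : LA.Theory, T.IsMaximal ∧ PA ⊆ T ∧ T ≠ TA ∧
      (∀ n, χ n = true ↔ ∃ σ ∈ T, gn σ = n) ∧ ∃ d ∈ degrees T, ∀ e ∈ degrees T, ¬ e < d} := by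
  simp only [tg_iff]
  exact c_an
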