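import Pool.Agent.P.MP_f8f34d_lc.G.Fin
import Pool.Agent.P.MP_f8f34d_lc.a.Sol

/-! For comeagre many completions of Peano arithmetic the degrees of the models have a minimal
element. -/

open FirstOrder FirstOrder.Language Pool.Agent.MinDeg

theorem Pool.Agent.Results.MP_f8f34d_lc.Generic.result (U : LA.Theory) (φ : LA.Formula Unit)
    (A : Set ℕ) (hU : CEIn A U) :
    {χ : Comp U φ A | ∃ T : LA.Theory, T.IsMaximal ∧ PA ⊆ T ∧ T ≠ TA ∧
      (∀ n, χ.1 n = true ↔ ∃ σ ∈ T, gn σ = n) ∧ ∃ d ∈ degrees T, ∀ e ∈ degrees T, ¬ e < d} ∈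
      residual (Comp U φ A) := by
  simp only [tg_iff]
  exact g_main solovay U φ A hU

/-- the space is closed in Cantor space, hence compact and a Baire space -/
theorem Pool.Agent.Results.MP_f8f34d_lc.Generic.space_closed (U : LA.Theory)
    (φ : LA.Formula Unit) (A : Set ℕ) : IsClosed (Comp U φ A) :=
  comp_closed U φ A

/-- so the completions with the answer yes are dense -/
theorem Pool.Agent.Results.MP_f8f34d_lc.Generic.yes_dense (U : LA.Theory) (φ : LA.Formula Unit)
    (A : Set ℕ) (hU : CEIn A U) :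
    Dense {χ : Comp U φ A | ∃ T : LA.Theory, T.IsMaximal ∧ PA ⊆ T ∧ T ≠ TA ∧
      (∀ n, χ.1 n = true ↔ ∃ σ ∈ T, gn σ = n) ∧ ∃ d ∈ degrees T, ∀ e ∈ degrees T, ¬ e < d} := by
  have : CompactSpace (Comp U φ A) := isCompact_iff_compactSpace.1 (comp_closed U φ A).isCompact
  exact dense_of_mem_residual (Pool.Agent.Results.MP_f8f34d_lc.Generic.result U φ A hU)

/-- a computably enumerable theory satisfies the hypothesis -/
theorem Pool.Agent.Results.MP_f8f34d_lc.Generic.hyp_of_ce (U : LA.Theory) (A : Set ℕ)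
    (hU : CE U) : CEIn A U :=
  ⟨fun m => (Part.assert (∃ σ ∈ U, gn σ = m) fun _ => Part.some ()).map fun _ => 0,
    (Partrec.map hU (Computable.const 0).to₂).recursiveIn, fun m => by
      simp [Part.dom_iff_mem, Part.mem_assert_iff]⟩

/-- with the false formula and the empty set the space is that of all completions of `PA + U` -/
theorem Pool.Agent.Results.MP_f8f34d_lc.Generic.space_all (U : LA.Theory) :
    Comp U ⊥ ∅ = {χ | ∃ T : LA.Theory, T.IsMaximal ∧ PA ⊆ T ∧ U ⊆ T ∧
      ∀ n, χ n = true ↔ ∃ σ ∈ T, gn σ = n} := by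
  refine Set.ext fun χ => exists_congr fun T => and_congr_right fun hT =>
    and_congr_right fun _ => and_congr_right fun _ => and_iff_right fun n => ?_
  obtain ⟨M⟩ := hT.1
  rw [Pa.mem_iff hT M.is_model, Pa.realize_inst]
  simp

/-- the space of all completions of `PA` is not empty -/
theorem Pool.Agent.Results.MP_f8f34d_lc.Generic.space_nonempty : (Comp ∅ ⊥ ∅).Nonempty := by
  rw [Pool.Agent.Results.MP_f8f34d_lc.Generic.space_all]
  exact ⟨tg TA, TA, @completeTheory.isMaximal LA ℕ natS _,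
    fun σ h => @Theory.realize_sentence_of_mem LA ℕ natS PA natS_model_PA σ h,
    Set.empty_subset _, tg_iff.2 rfl⟩
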