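import Pool.Agent.P.MP_f8f34d_lc.Main
import Pool.Agent.P.MP_f8f34d_lc.NatPA

/-! Completions of Peano arithmetic whose models have a minimal degree. -/

open FirstOrder FirstOrder.Language Pool.Agent.MinDeg

theorem Pool.Agent.Results.MP_f8f34d_lc.MinimalDegree.result
    (U : LA.Theory) (hU : CE U) (hsat : (PA ∪ U).IsSatisfiable) :
    ¬ Set.Countable {T : LA.Theory | T.IsMaximal ∧ PA ∪ U ⊆ T ∧ T ≠ TA ∧
      degT T ∈ degrees T ∧ ∀ e ∈ degrees T, ¬ e < degT T} :=
  main U hU hsat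

/-- The hypotheses hold for the empty set of extra axioms. -/
theorem Pool.Agent.Results.MP_f8f34d_lc.MinimalDegree.hypotheses_hold :
    CE ∅ ∧ (PA ∪ ∅ : LA.Theory).IsSatisfiable := ⟨ce_empty, sat_PA⟩
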