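import Pool.Agent.P.MP_f8f34d_lc.O.Fin
import Pool.Agent.P.MP_f8f34d_lc.a.Sol

/-! A completion of Peano arithmetic that is not computable in the omega jump of an enumeration
of its represented sets has a model of minimal degree. -/

open FirstOrder FirstOrder.Language Pool.Agent.MinDeg

theorem Pool.Agent.Results.MP_f8f34d_lc.OmegaJump.result (T : LA.Theory) (hT : T.IsMaximal)
    (hPA : PA ⊆ T) (hTA : T ≠ TA) (R : ℕ → Set ℕ) (hR : Set.range R = RepT T)
    (h : ¬ degT T ≤ degS (omegaJump (join R))) :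
    ∃ d ∈ degrees T, ∀ e ∈ degrees T, ¬ e < d :=
  omega_main solovay T hT hPA hTA R hR fun k => h (omega_le.2 k)

/-- the hypotheses can be met -/
theorem Pool.Agent.Results.MP_f8f34d_lc.OmegaJump.hyp_met : ∃ T : LA.Theory, T.IsMaximal ∧
    PA ⊆ T ∧ T ≠ TA ∧ ∃ R : ℕ → Set ℕ, Set.range R = RepT T ∧
      ¬ degT T ≤ degS (omegaJump (join R)) := by
  simp only [omega_le]
  exact os_exists fun R => oj (chi (join R))

/-- over each family only countably many completions are left -/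
theorem Pool.Agent.Results.MP_f8f34d_lc.OmegaJump.fibre (S : Set (Set ℕ)) :
    Set.Countable {T : LA.Theory | T.IsMaximal ∧ PA ⊆ T ∧ RepT T = S ∧
      ¬ ∃ d ∈ degrees T, ∀ e ∈ degrees T, ¬ e < d} :=
  os_fibre (fun R => oj (chi (join R))) (fun T h1 h2 h3 R h4 h5 =>
    Pool.Agent.Results.MP_f8f34d_lc.OmegaJump.result T h1 h2 h3 R h4 fun k => h5 (omega_le.1 k)) S

/-- the columns of `jump A` are exactly the sets computably enumerable in `A` -/
theorem Pool.Agent.Results.MP_f8f34d_lc.OmegaJump.jump_col (A B : Set ℕ) :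
    (∃ f : ℕ →. ℕ, RecursiveIn {hat (chi A)} f ∧ ∀ m, (f m).Dom ↔ m ∈ B) ↔
      ∃ e, ∀ m, m ∈ B ↔ Nat.pair e m ∈ jump A := by
  rw [oj_col, ← chi_jump]
  simp [chi]

/-- `jump A` is computably enumerable in `A` -/
theorem Pool.Agent.Results.MP_f8f34d_lc.OmegaJump.jump_ce (A : Set ℕ) :
    ∃ f : ℕ →. ℕ, RecursiveIn {hat (chi A)} f ∧ ∀ m, (f m).Dom ↔ m ∈ jump A := by
  have := oj_ce (chi A)
  rw [← chi_jump] at this
  simpa [chi] using this
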